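import Mathlib

set_option autoImplicit false

namespace Pool.Agent.Results.MP_c605fa_an.MaxArcLength

open Polynomial intervalIntegral

/-- arc-length of the graph of `p` over `[-1,1]` -/
noncomputable def arcLength (p : ℝ[X]) : ℝ :=
  ∫ t in (-1 : ℝ)..1, Real.sqrt (1 + (p.derivative.eval t) ^ 2)

lemma cont (p : ℝ[X]) : Continuous (fun t : ℝ => Real.sqrt (1 + (p.derivative.eval t) ^ 2)) := by
  have : Continuous (fun t : ℝ => p.derivative.eval t) := p.derivative.continuous
  fun_prop

lemma intg (p : ℝ[X]) (a b : ℝ) : IntervalIntegrable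
    (fun t : ℝ => Real.sqrt (1 + (p.derivative.eval t) ^ 2)) MeasureTheory.volume a b :=
  (cont p).intervalIntegrable _ _

lemma conv_sqrt (u v l : ℝ) (h0 : 0 ≤ l) (h1 : l ≤ 1) :
    Real.sqrt (1 + (l * u + (1 - l) * v) ^ 2) ≤
      l * Real.sqrt (1 + u ^ 2) + (1 - l) * Real.sqrt (1 + v ^ 2) := by
  have hA := Real.sq_sqrt (show 0 ≤ 1 + u ^ 2 by positivity)
  have hB := Real.sq_sqrt (show 0 ≤ 1 + v ^ 2 by positivity)
  set A := Real.sqrt (1 + u ^ 2)
  set B := Real.sqrt (1 + v ^ 2)
  have hA0 : 0 ≤ A := Real.sqrt_nonneg _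
  have hB0 : 0 ≤ B := Real.sqrt_nonneg _
  have hAB : 1 + u * v ≤ A * B := by
    have h2 : (1 + u * v) ^ 2 ≤ (A * B) ^ 2 := by
      rw [mul_pow, hA, hB]; nlinarith [sq_nonneg (u - v)]
    exact (abs_le_of_sq_le_sq' h2 (mul_nonneg hA0 hB0)).2
  apply Real.sqrt_le_iff.2
  constructor
  · have : 0 ≤ 1 - l := by linarith
    positivity
  · have h3 : 0 ≤ l * (1 - l) := mul_nonneg h0 (by linarith)
    nlinarith [mul_le_mul_of_nonneg_left hAB h3]


/-- moving one zero to an endpoint does not decrease the arc-length -/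
lemma move (Q : ℝ[X]) (t : ℝ) (h1 : -1 ≤ t) (h2 : t ≤ 1) :
    arcLength ((X - C t) * Q) ≤ arcLength ((X - C (-1)) * Q) ∨
      arcLength ((X - C t) * Q) ≤ arcLength ((X - C 1) * Q) := by
  set l := (1 - t) / 2 with hl
  have hl0 : 0 ≤ l := by rw [hl]; linarith
  have hl1 : l ≤ 1 := by rw [hl]; linarith
  have hder : ∀ s x : ℝ, (derivative ((X - C s) * Q)).eval x = Q.eval x + (x - s) * Q.derivative.eval x := by
    intro s x
    simp [derivative_mul]
  have key : arcLength ((X - C t) * Q) ≤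
      l * arcLength ((X - C (-1)) * Q) + (1 - l) * arcLength ((X - C 1) * Q) := by
    unfold arcLength
    rw [← intervalIntegral.integral_const_mul, ← intervalIntegral.integral_const_mul,
      ← intervalIntegral.integral_add ((intg _ _ _).const_mul _) ((intg _ _ _).const_mul _)]
    apply intervalIntegral.integral_mono_on (by norm_num) (intg _ _ _)
      (((intg _ _ _).const_mul _).add ((intg _ _ _).const_mul _))
    intro x _
    have e : (derivative ((X - C t) * Q)).eval x =
        l * (derivative ((X - C (-1)) * Q)).eval x + (1 - l) * (derivative ((X - C 1) * Q)).eval x := by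
      rw [hder, hder, hder, hl]; ring
    rw [e]
    exact conv_sqrt _ _ l hl0 hl1
  by_contra hc
  push Not at hc
  obtain ⟨hc1, hc2⟩ := hc
  rcases hl0.lt_or_eq with h0 | h0
  · have e1 := mul_pos h0 (sub_pos.2 hc1)
    have e2 := mul_nonneg (sub_nonneg.2 hl1) (sub_nonneg.2 hc2.le)
    linarith
  · rw [← h0] at key
    linarith

lemma to_vertices {n : ℕ} (x : Fin n → ℝ) (hx : ∀ i, x i ∈ Set.Icc (-1 : ℝ) 1) (s : Finset (Fin n)) :
    ∃ y : Fin n → ℝ, (∀ i ∈ s, y i = 1 ∨ y i = -1) ∧ (∀ i, i ∉ s → y i = x i) ∧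
      arcLength (∏ i, (X - C (x i))) ≤ arcLength (∏ i, (X - C (y i))) := by
  classical
  induction s using Finset.induction_on with
  | empty => exact ⟨x, by simp, by simp, le_rfl⟩
  | insert j s hj ih =>
    obtain ⟨y, hy1, hy2, hy3⟩ := ih
    have hprod : ∀ z : Fin n → ℝ, ∏ i, (X - C (z i)) =
        (X - C (z j)) * ∏ i ∈ Finset.univ.erase j, (X - C (z i)) := fun z =>
      (Finset.mul_prod_erase _ _ (Finset.mem_univ j)).symm
    have hupd : ∀ v : ℝ, ∏ i, (X - C (Function.update y j v i)) =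
        (X - C v) * ∏ i ∈ Finset.univ.erase j, (X - C (y i)) := by
      intro v
      rw [hprod, Function.update_self]
      congr 1
      apply Finset.prod_congr rfl
      intro i hi
      rw [Function.update_of_ne (Finset.ne_of_mem_erase hi)]
    have hyj := hx j
    rw [← hy2 j hj] at hyj
    have hcase := move (∏ i ∈ Finset.univ.erase j, (X - C (y i))) (y j) hyj.1 hyj.2
    rw [← hprod y, ← hupd (-1), ← hupd 1] at hcase
    have build : ∀ v : ℝ, (v = 1 ∨ v = -1) →
        arcLength (∏ i, (X - C (y i))) ≤ arcLength (∏ i, (X - C (Function.update y j v i))) →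
        ∃ y' : Fin n → ℝ, (∀ i ∈ insert j s, y' i = 1 ∨ y' i = -1) ∧
          (∀ i, i ∉ insert j s → y' i = x i) ∧
          arcLength (∏ i, (X - C (x i))) ≤ arcLength (∏ i, (X - C (y' i))) := by
      intro v hv hle
      refine ⟨Function.update y j v, ?_, ?_, hy3.trans hle⟩
      · intro i hi
        by_cases hij : i = j
        · rw [hij, Function.update_self]; exact hv
        · rw [Function.update_of_ne hij]
          exact hy1 i ((Finset.mem_insert.1 hi).resolve_left hij)
      · intro i hi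
        rw [Finset.mem_insert, not_or] at hi
        rw [Function.update_of_ne hi.1]
        exact hy2 i hi.2
    rcases hcase with h | h
    · exact build (-1) (Or.inr rfl) h
    · exact build 1 (Or.inl rfl) h

/-- lower bound for the extremal polynomial -/
lemma lower (n : ℕ) (hn : 1 ≤ n) : (2 : ℝ) ^ n ≤ arcLength ((X - C 1) ^ n) := by
  set p : ℝ[X] := (X - C 1) ^ n with hp
  have h1 : ∫ t in (-1 : ℝ)..1, p.derivative.eval t = p.eval 1 - p.eval (-1) :=
    intervalIntegral.integral_eq_sub_of_hasDerivAt (fun t _ => p.hasDerivAt t)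
      (p.derivative.continuous.intervalIntegrable _ _)
  have h2 : p.eval 1 = 0 := by simp [hp]; omega
  have h3 : |p.eval (-1)| = 2 ^ n := by
    rw [hp, eval_pow, eval_sub, eval_X, eval_C, abs_pow]
    norm_num
  have h4 : |∫ t in (-1 : ℝ)..1, p.derivative.eval t| = 2 ^ n := by
    rw [h1, h2, zero_sub, abs_neg, h3]
  rw [← h4]
  refine (intervalIntegral.abs_integral_le_integral_abs (by norm_num)).trans ?_
  unfold arcLength
  apply intervalIntegral.integral_mono_on (by norm_num) _ (intg _ _ _)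
  · intro t _
    apply Real.le_sqrt_of_sq_le
    rw [sq_abs]
    linarith
  · exact (p.derivative.continuous.abs).intervalIntegrable _ _

lemma bound_aux (m : ℕ) (u : ℝ) (h0 : 0 ≤ u) (h1 : u ≤ 1) :
    (1 - u) * (1 + u) ^ (m + 1) ≤ 2 ^ (m + 1) - 1 := by
  induction m with
  | zero => norm_num; nlinarith
  | succ m ih =>
    have h2 : (1 - u) * (1 + u) ^ (m + 1 + 1) = (1 + u) * ((1 - u) * (1 + u) ^ (m + 1)) := by ring
    rw [h2]
    have h3 : (1 : ℝ) ≤ 2 ^ (m + 1) := one_le_pow₀ (by norm_num)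
    calc (1 + u) * ((1 - u) * (1 + u) ^ (m + 1)) ≤ 2 * (2 ^ (m + 1) - 1) := by
          apply mul_le_mul (by linarith) ih _ (by norm_num)
          apply mul_nonneg (by linarith)
          positivity
      _ ≤ 2 ^ (m + 1 + 1) - 1 := by rw [pow_succ (2:ℝ) (m + 1)]; linarith

/-- sup bound for mixed vertices -/
lemma sup_bound (a b : ℕ) (x : ℝ) (h1 : -1 ≤ x) (h2 : x ≤ 1) :
    |(x - 1) ^ (a + 1) * (x + 1) ^ (b + 1)| ≤ 2 ^ (a + b + 1) - 1 := by
  rw [abs_mul, abs_pow, abs_pow]
  have e1 : |x - 1| = 1 - x := by rw [abs_sub_comm]; exact abs_of_nonneg (by linarith)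
  have e2 : |x + 1| = 1 + x := by rw [abs_of_nonneg (by linarith)]; ring
  rw [e1, e2]
  have key : ∀ (a b : ℕ) (u : ℝ), 0 ≤ u → u ≤ 1 →
      (1 - u) ^ (a + 1) * (1 + u) ^ (b + 1) ≤ 2 ^ (a + b + 1) - 1 := by
    intro a b u hu0 hu1
    have h3 : (1 - u) ^ (a + 1) * (1 + u) ^ (b + 1) ≤ (1 - u) * (1 + u) ^ (a + b + 1) := by
      have h4 : (1 - u) ^ a ≤ (1 + u) ^ a := pow_le_pow_left₀ (by linarith) (by linarith) a
      calc (1 - u) ^ (a + 1) * (1 + u) ^ (b + 1) = (1 - u) * (1 + u) ^ (b + 1) * (1 - u) ^ a := by ring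
        _ ≤ (1 - u) * (1 + u) ^ (b + 1) * (1 + u) ^ a := by
            apply mul_le_mul_of_nonneg_left h4
            apply mul_nonneg (by linarith)
            positivity
        _ = (1 - u) * (1 + u) ^ (a + b + 1) := by ring
    exact h3.trans (bound_aux (a + b) u hu0 hu1)
  rcases le_total 0 x with hx | hx
  · exact key a b x hx h2
  · have := key b a (-x) (by linarith) (by linarith)
    have e3 : (1 - -x) ^ (b + 1) * (1 + -x) ^ (a + 1) = (1 - x) ^ (a + 1) * (1 + x) ^ (b + 1) := by
      rw [mul_comm, sub_neg_eq_add, ← sub_eq_add_neg]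
    rw [e3, add_comm b a] at this
    exact this

/-- upper bound for mixed vertices -/
lemma upper (a b : ℕ) : arcLength ((X - C 1) ^ (a + 1) * (X - C (-1)) ^ (b + 1)) ≤ 2 ^ (a + b + 2) := by
  set p : ℝ[X] := (X - C 1) ^ (a + 1) * (X - C (-1)) ^ (b + 1) with hp
  have hpe : ∀ x : ℝ, p.eval x = (x - 1) ^ (a + 1) * (x + 1) ^ (b + 1) := by
    intro x; simp [hp]
  have hpd : ∀ x : ℝ, p.derivative.eval x =
      (x - 1) ^ a * (x + 1) ^ b * (((a : ℝ) + b + 2) * x + (a - b)) := by
    intro x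
    simp only [hp, derivative_mul, derivative_X_sub_C_pow, eval_add, eval_mul, eval_pow, eval_sub, eval_X, eval_C,
      eval_natCast]
    simp
    ring
  have hcd : Continuous (fun t : ℝ => p.derivative.eval t) := p.derivative.continuous
  set x0 : ℝ := (b - a) / ((a : ℝ) + b + 2) with hx0
  have hden : (0 : ℝ) < (a : ℝ) + b + 2 := by positivity
  have hx1 : -1 ≤ x0 := by
    rw [hx0, le_div_iff₀ hden]
    have : (0 : ℝ) ≤ b := Nat.cast_nonneg b
    linarith
  have hx2 : x0 ≤ 1 := by
    rw [hx0, div_le_iff₀ hden]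
    have : (0 : ℝ) ≤ a := Nat.cast_nonneg a
    linarith
  have hlin : ∀ x : ℝ, ((a : ℝ) + b + 2) * x + (a - b) = ((a : ℝ) + b + 2) * (x - x0) := by
    intro x; rw [hx0]; field_simp; ring
  have hint : ∀ c d : ℝ, ∫ t in c..d, p.derivative.eval t = p.eval d - p.eval c := fun c d =>
    intervalIntegral.integral_eq_sub_of_hasDerivAt (fun t _ => p.hasDerivAt t)
      (hcd.intervalIntegrable _ _)
  have hsgn : ∀ x : ℝ, x ≤ 1 → (x - 1) ^ a = (-1) ^ a * |x - 1| ^ a := by
    intro x hx
    rw [← mul_pow]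
    congr 1
    rw [abs_of_nonpos (by linarith)]; ring
  -- the two halves
  have hl : ∫ t in (-1 : ℝ)..x0, |p.derivative.eval t| ≤ |p.eval x0| := by
    have e1 : ∫ t in (-1 : ℝ)..x0, |p.derivative.eval t| =
        ∫ t in (-1 : ℝ)..x0, (-(-1) ^ a) * p.derivative.eval t := by
      apply intervalIntegral.integral_congr
      intro t ht
      rw [Set.uIcc_of_le hx1] at ht
      show |p.derivative.eval t| = (-(-1) ^ a) * p.derivative.eval t
      rw [hpd, hlin, hsgn t (by linarith [ht.2])]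
      have h2 : 0 ≤ |t - 1| ^ a * (t + 1) ^ b * (((a : ℝ) + b + 2) * (x0 - t)) := by
        have := ht.1; have := ht.2
        apply mul_nonneg (mul_nonneg (by positivity) (pow_nonneg (by linarith) _))
        exact mul_nonneg hden.le (by linarith)
      have h3 : (-1 : ℝ) ^ a * |t - 1| ^ a * (t + 1) ^ b * (((a : ℝ) + b + 2) * (t - x0)) =
          (-(-1) ^ a) * (|t - 1| ^ a * (t + 1) ^ b * (((a : ℝ) + b + 2) * (x0 - t))) := by ring
      rw [h3, abs_mul, abs_of_nonneg h2]
      have h4 : |(-(-1 : ℝ) ^ a)| = 1 := by rw [abs_neg, abs_pow]; norm_num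
      have h5 : (-(-1 : ℝ) ^ a) * (-(-1) ^ a) = 1 := by
        rw [neg_mul_neg, ← mul_pow]; norm_num
      rw [h4, one_mul]
      linear_combination (-(|t - 1| ^ a * (t + 1) ^ b * (((a : ℝ) + b + 2) * (x0 - t)))) * h5
    rw [e1, intervalIntegral.integral_const_mul, hint]
    have h6 : p.eval (-1) = 0 := by rw [hpe]; simp
    rw [h6, sub_zero]
    refine (le_abs_self _).trans ?_
    rw [abs_mul]
    have h4 : |(-(-1 : ℝ) ^ a)| = 1 := by rw [abs_neg, abs_pow]; norm_num
    rw [h4, one_mul]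
  have hr : ∫ t in x0..(1 : ℝ), |p.derivative.eval t| ≤ |p.eval x0| := by
    have e1 : ∫ t in x0..(1 : ℝ), |p.derivative.eval t| =
        ∫ t in x0..(1 : ℝ), ((-1) ^ a) * p.derivative.eval t := by
      apply intervalIntegral.integral_congr
      intro t ht
      rw [Set.uIcc_of_le hx2] at ht
      show |p.derivative.eval t| = ((-1) ^ a) * p.derivative.eval t
      rw [hpd, hlin, hsgn t ht.2]
      have h2 : 0 ≤ |t - 1| ^ a * (t + 1) ^ b * (((a : ℝ) + b + 2) * (t - x0)) := by
        have := ht.1; have := ht.2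
        apply mul_nonneg (mul_nonneg (by positivity) (pow_nonneg (by linarith) _))
        exact mul_nonneg hden.le (by linarith)
      have h3 : (-1 : ℝ) ^ a * |t - 1| ^ a * (t + 1) ^ b * (((a : ℝ) + b + 2) * (t - x0)) =
          ((-1) ^ a) * (|t - 1| ^ a * (t + 1) ^ b * (((a : ℝ) + b + 2) * (t - x0))) := by ring
      rw [h3, abs_mul, abs_of_nonneg h2]
      have h4 : |((-1 : ℝ) ^ a)| = 1 := by rw [abs_pow]; norm_num
      have h5 : ((-1 : ℝ) ^ a) * ((-1) ^ a) = 1 := by
        rw [← mul_pow]; norm_num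
      rw [h4, one_mul]
      linear_combination (-(|t - 1| ^ a * (t + 1) ^ b * (((a : ℝ) + b + 2) * (t - x0)))) * h5
    rw [e1, intervalIntegral.integral_const_mul, hint]
    have h6 : p.eval 1 = 0 := by rw [hpe]; simp
    rw [h6, zero_sub]
    refine (le_abs_self _).trans ?_
    rw [abs_mul, abs_neg]
    have h4 : |((-1 : ℝ) ^ a)| = 1 := by rw [abs_pow]; norm_num
    rw [h4, one_mul]
  have hsum : ∫ t in (-1 : ℝ)..1, |p.derivative.eval t| ≤ 2 * |p.eval x0| := by
    rw [← intervalIntegral.integral_add_adjacent_intervals (b := x0)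
      (hcd.abs.intervalIntegrable _ _) (hcd.abs.intervalIntegrable _ _)]
    linarith
  have hsup : |p.eval x0| ≤ 2 ^ (a + b + 1) - 1 := by
    rw [hpe]; exact sup_bound a b x0 hx1 hx2
  have hL : arcLength p ≤ 2 + ∫ t in (-1 : ℝ)..1, |p.derivative.eval t| := by
    have e2 : (2 : ℝ) + ∫ t in (-1 : ℝ)..1, |p.derivative.eval t| =
        ∫ t in (-1 : ℝ)..1, (1 + |p.derivative.eval t|) := by
      rw [intervalIntegral.integral_add (by simp) (hcd.abs.intervalIntegrable _ _)]
      simp
      norm_num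
    rw [e2]
    unfold arcLength
    apply intervalIntegral.integral_mono_on (by norm_num) (intg _ _ _)
    · exact (continuous_const.add hcd.abs).intervalIntegrable _ _
    · intro t _
      apply Real.sqrt_le_iff.2
      constructor
      · positivity
      · have := sq_abs (p.derivative.eval t)
        nlinarith [abs_nonneg (p.derivative.eval t)]
  have : (2 : ℝ) ^ (a + b + 2) = 2 * 2 ^ (a + b + 1) := by rw [pow_succ]; ring
  linarith

lemma symm_case (n : ℕ) : arcLength ((X - C (-1)) ^ n) = arcLength ((X - C 1) ^ n) := by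
  unfold arcLength
  have h := intervalIntegral.integral_comp_neg (a := (-1:ℝ)) (b := 1)
    (fun t : ℝ => Real.sqrt (1 + (((X - C (-1)) ^ n : ℝ[X]).derivative.eval t) ^ 2))
  rw [neg_neg] at h
  rw [← h]
  apply intervalIntegral.integral_congr
  intro t _
  show Real.sqrt (1 + (((X - C (-1)) ^ n : ℝ[X]).derivative.eval (-t)) ^ 2) =
    Real.sqrt (1 + (((X - C 1) ^ n : ℝ[X]).derivative.eval t) ^ 2)
  congr 2
  rw [derivative_X_sub_C_pow, derivative_X_sub_C_pow]
  simp only [eval_mul, eval_natCast, eval_pow, eval_sub, eval_X, eval_C, mul_pow]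
  congr 1
  have : (-t - -1 : ℝ) = -(t - 1) := by ring
  rw [this, neg_pow (t - 1), mul_pow, ← pow_mul, mul_comm (n - 1) 2, pow_mul]
  norm_num

/-- The class `𝓜ₙ`: monic polynomials of degree `n` all of whose zeros (with multiplicity) are
real and lie in `[-1,1]`. -/
def M (n : ℕ) : Set ℝ[X] :=
  {P | ∃ x : Fin n → ℝ, (∀ i, x i ∈ Set.Icc (-1 : ℝ) 1) ∧ P = ∏ i, (X - C (x i))}

theorem main : ∀ n : ℕ, 1 ≤ n → ∀ x : Fin n → ℝ, (∀ i, x i ∈ Set.Icc (-1 : ℝ) 1) →
    arcLength (∏ i, (X - C (x i))) ≤ arcLength ((X - C 1) ^ n) := by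
  classical
  intro n hn x hx
  obtain ⟨y, hy1, -, hy3⟩ := to_vertices x hx Finset.univ
  refine hy3.trans ?_
  have hprod : ∏ i, (X - C (y i)) = (X - C 1) ^ (Finset.univ.filter (fun i => y i = 1)).card *
      (X - C (-1) : ℝ[X]) ^ (Finset.univ.filter (fun i => ¬ y i = 1)).card := by
    have h1 : ∏ i, (X - C (y i)) = ∏ i, (if y i = 1 then (X - C 1 : ℝ[X]) else X - C (-1)) := by
      apply Finset.prod_congr rfl
      intro i _
      rcases hy1 i (Finset.mem_univ i) with h | h
      · rw [h, if_pos rfl]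
      · rw [h, if_neg (by norm_num)]
    rw [h1, Finset.prod_ite, Finset.prod_const, Finset.prod_const]
  have hcard : (Finset.univ.filter (fun i => y i = 1)).card +
      (Finset.univ.filter (fun i => ¬ y i = 1)).card = n := by
    rw [Finset.card_filter_add_card_filter_not]
    simp
  rw [hprod]
  generalize (Finset.univ.filter (fun i => y i = 1)).card = a at hcard ⊢
  generalize (Finset.univ.filter (fun i => ¬ y i = 1)).card = b at hcard ⊢
  rcases Nat.eq_zero_or_pos b with hb | hb
  · rw [hb, pow_zero, mul_one]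
    rw [hb, add_zero] at hcard
    rw [hcard]
  · rcases Nat.eq_zero_or_pos a with ha | ha
    · rw [ha, pow_zero, one_mul]
      rw [ha, zero_add] at hcard
      rw [hcard, symm_case]
    · obtain ⟨a', rfl⟩ : ∃ a', a = a' + 1 := ⟨a - 1, by omega⟩
      obtain ⟨b', rfl⟩ : ∃ b', b = b' + 1 := ⟨b - 1, by omega⟩
      have h1 := upper a' b'
      have h2 := lower n hn
      have h3 : a' + b' + 2 = n := by omega
      rw [h3] at h1
      exact h1.trans h2

/-- **Maximal arc-length.** For every `n ≥ 1`, the polynomial `(x-1)^n` belongs to `𝓜ₙ` and has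
maximal arc-length among all members of `𝓜ₙ`. -/
theorem result : ∀ n : ℕ, 1 ≤ n →
    ((X - C 1) ^ n : ℝ[X]) ∈ M n ∧ ∀ P ∈ M n, arcLength P ≤ arcLength ((X - C 1) ^ n) := by
  intro n hn
  constructor
  · exact ⟨fun _ => 1, fun _ => by constructor <;> norm_num, by simp⟩
  · rintro P ⟨x, hx, rfl⟩
    exact main n hn x hx

end Pool.Agent.Results.MP_c605fa_an.MaxArcLength
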